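import Mathlib
import Pool.Agent.Lib.MP_ef3a35_an.Map

set_option autoImplicit false

namespace Pool.Agent.Results.MP_ef3a35_an.RegRecCE

open Pool.Agent.Lib.MP_ef3a35_an Filter Topology
open scoped ContDiff

theorem agree_knead {δ α : ℝ} (hp : Par δ α) {m : ℕ} (hm : 0 < m) :
    ((6 * rho 0 m : ℕ) : ℕ∞) ≤ ret (kneading (F δ α) (1 / 2)) (6 * m) := by
  apply le_ret
  intro i h1 h2
  rw [hp.knead (by omega), hp.knead h1]
  exact agree_rho hm i h1 h2

theorem not_slow {δ α : ℝ} (hp : Par δ α) : ¬ SlowlyRecurrent (kneading (F δ α) (1 / 2)) := by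
  classical
  intro hs
  unfold SlowlyRecurrent at hs
  have hlow : ∀ l : ℕ, (1 / 128 : ENNReal) ≤ limsup (fun i : ℕ =>
      (∑ j ∈ (Finset.Icc 1 i).filter (fun j => (l : ℕ∞) ≤ ret (kneading (F δ α) (1 / 2)) j),
        (ret (kneading (F δ α) (1 / 2)) j : ENNReal)) / (i : ENNReal)) atTop := by
    intro l
    refine Filter.le_limsup_of_frequently_le ?_ (by isBoundedDefault)
    rw [Filter.frequently_atTop]
    intro i0
    -- choose the level
    set j := i0 + l with hj
    have hkj := lt_k j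
    have hpos : 0 < 128 * k j := by omega
    have hret := agree_knead hp hpos
    rw [rho_special] at hret
    have hka := k_le_a j
    have hret2 : ((6 * k j : ℕ) : ℕ∞) ≤ ret (kneading (F δ α) (1 / 2)) (6 * (128 * k j)) :=
      le_trans (by exact_mod_cast (by omega : 6 * k j ≤ 6 * a (j + 1))) hret
    refine ⟨6 * (128 * k j), by omega, ?_⟩
    have h1 : ((6 * k j : ℕ) : ENNReal) ≤
        ∑ j' ∈ (Finset.Icc 1 (6 * (128 * k j))).filter
          (fun j => (l : ℕ∞) ≤ ret (kneading (F δ α) (1 / 2)) j),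
          (ret (kneading (F δ α) (1 / 2)) j' : ENNReal) := by
      have h2 : 6 * (128 * k j) ∈ (Finset.Icc 1 (6 * (128 * k j))).filter
          (fun j => (l : ℕ∞) ≤ ret (kneading (F δ α) (1 / 2)) j) := by
        rw [Finset.mem_filter, Finset.mem_Icc]
        refine ⟨⟨by omega, le_rfl⟩, le_trans ?_ hret2⟩
        exact_mod_cast (by omega : l ≤ 6 * k j)
      calc ((6 * k j : ℕ) : ENNReal) = (((6 * k j : ℕ) : ℕ∞) : ENNReal) := by simp
        _ ≤ (ret (kneading (F δ α) (1 / 2)) (6 * (128 * k j)) : ENNReal) :=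
          ENat.toENNReal_mono hret2
        _ ≤ _ := Finset.single_le_sum (f := fun j' =>
            (ret (kneading (F δ α) (1 / 2)) j' : ENNReal)) (fun _ _ => zero_le) h2
    have h3 : ((6 * (128 * k j) : ℕ) : ENNReal) ≠ 0 := by
      exact_mod_cast (by omega : 6 * (128 * k j) ≠ 0)
    rw [ENNReal.le_div_iff_mul_le (Or.inl h3) (Or.inl (ENNReal.natCast_ne_top _))]
    refine le_trans (le_of_eq ?_) h1
    rw [one_div]
    have e : ((6 * (128 * k j) : ℕ) : ENNReal) = 128 * ((6 * k j : ℕ) : ENNReal) := by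
      push_cast; ring
    rw [e, ← mul_assoc, ENNReal.inv_mul_cancel (by norm_num) (by norm_num), one_mul]
  have h := ge_of_tendsto' hs hlow
  simp at h

/-- **Q1 (answered positively):** there is an S-unimodal map with a regularly recurrent turning
point and a kneading sequence that is not slowly recurrent, which satisfies the Collet-Eckmann
condition. The map is `C^∞` on the real line with a nondegenerate turning point. -/
theorem result : ∃ (f : ℝ → ℝ) (c : ℝ), SUnimodal f c ∧
    ContDiff ℝ ∞ f ∧ iteratedDeriv 2 f c ≠ 0 ∧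
    RegularlyRecurrent f c ∧
    (∀ i ≥ 1, f^[i] c ≠ c) ∧ ¬ SlowlyRecurrent (kneading f c) ∧
    ColletEckmann f c := by
  have hδ : (0:ℝ) < 1 / 10 ^ 7 := by norm_num
  obtain ⟨α, hα, hs⟩ := exists_alpha_all hδ
  have hp : Par (1 / 10 ^ 7) α := ⟨hδ, le_rfl, hα, hs⟩
  refine ⟨F (1 / 10 ^ 7) α, 1 / 2, hp.sUnimodal, contDiff_F hδ, ?_, hp.recurrent, ?_,
    not_slow hp, hp.ce⟩
  · rw [deriv2 hδ]
    have hw := w_pos hδ (1 / 2)
    have := hp.ge
    simp only
    apply div_ne_zero _ (by positivity)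
    apply mul_ne_zero _ (by positivity)
    linarith
  · intro i hi h
    rw [iter_eq] at h
    exact hp.ne_zero hi (by linarith)

end Pool.Agent.Results.MP_ef3a35_an.RegRecCE
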